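import Pool.Agent.R498.ShortUpper

set_option autoImplicit false

/-!
# Upper bounds for the number of primes `n ^ 2 + 1` in almost all short intervals

For an individual interval `(N, N + X ^ h]` the sieve gives at most `(4 / h + δ)` times the conjectured
number of `n` with `n ^ 2 + 1` prime. Here the constant is `4 / t + δ` for all but at most
`X ^ (2 t - h + ε)` of the `N ≤ X`, for every `1 / 2 ≤ t < 1`: the constant is `8 / (1 + h) + δ` for
almost all `N`, and `8 + δ` for all but `X ^ (1 - h + ε)` of them, however small `h > 0` is.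
-/

namespace Pool.Agent.Results.MP_484c84_nt.AlmostAllShortUpper

open Finset Filter Topology

/-- The number of the integers `n` in `(N, N + H]` such that `n ^ 2 + 1` is a prime, that is
`P_1(N + H) - P_1(N)`. -/
def primeCount (N H : ℕ) : ℕ := ((Ioc N (N + H)).filter (fun n : ℕ => (n ^ 2 + 1).Prime)).card

open Classical in
/-- **Primes `n ^ 2 + 1` in almost all short intervals.** There is `c₁ > 0`, half of the product over
the odd primes `p` of `1 - χ₋₄(p) / (p - 1)`, the constant of the conjecture, such that for all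
`0 < h ≤ 1`, `1 / 2 ≤ t < 1` and `δ, ε > 0` and all large `X` the inequality
`P_1(N + X ^ h) - P_1(N) ≤ (4 / t + δ) c₁ X ^ h / log X` holds for all but at most
`X ^ (2 t - h + ε)` of the integers `1 ≤ N ≤ X`. -/
theorem result : ∃ c₁ : ℝ, 0 < c₁ ∧
    Tendsto (fun x : ℕ => 1 / 2 * ∏ p ∈ (Finset.range (x + 1)).filter (fun p => p.Prime ∧ Odd p),
      (1 - (((ZMod.χ₄ (p : ZMod 4) : ℤ) : ℝ)) / ((p : ℝ) - 1))) atTop (𝓝 c₁) ∧
    ∀ h t δ ε : ℝ, 0 < h → h ≤ 1 → 1 / 2 ≤ t → t < 1 → 0 < δ → 0 < ε →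
      ∀ᶠ X : ℕ in atTop, (((Icc 1 X).filter (fun N : ℕ =>
        (4 / t + δ) * (c₁ * ((X : ℝ) ^ h / Real.log X)) <
          (primeCount N ⌊(X : ℝ) ^ h⌋₊ : ℝ))).card : ℝ) ≤ (X : ℝ) ^ (2 * t - h + ε) := by
  obtain ⟨L, hL, h1, h2⟩ := Pool.Agent.R498.SU.main
  refine ⟨L / 2, by positivity, ?_, ?_⟩
  · have h3 := h1.const_mul (1 / 2)
    rw [show (1 / 2 : ℝ) * L = L / 2 by ring] at h3
    exact h3
  · intro h t δ ε a1 a2 a3 a4 a5 a6
    exact h2 h t δ ε a1 a2 a3 a4 a5 a6

end Pool.Agent.Results.MP_484c84_nt.AlmostAllShortUpper
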