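import Pool.Agent.R498.ShortAP

set_option autoImplicit false

/-!
# Narrow progressions of `n` with `n ^ 2 + 1` almost prime, in almost all very short intervals
-/

namespace Pool.Agent.Results.MP_484c84_nt.ShortIntervalProgressions

open Finset Filter

/-- `n ^ 2 + 1` has at most `r` prime factors, counted with multiplicity, all of them at least `w`. -/
def AlmostPrimeArgument (r : ℕ) (w : ℝ) (n : ℕ) : Prop :=
  (n ^ 2 + 1).primeFactorsList.length ≤ r ∧ ∀ p : ℕ, p.Prime → p ∣ n ^ 2 + 1 → w ≤ p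

open Classical in
/-- The number of the `n` in `(M, M + H]` that are terms of an `l`-term arithmetic progression with
difference at most `D`, contained in `(M, M + H]`, all terms `m` of which are such that `m ^ 2 + 1` has at
most `r` prime factors, all of them at least `w`. -/
noncomputable def inProgressions (r : ℕ) (w : ℝ) (l : ℕ) (D : ℝ) (M H : ℕ) : ℕ :=
  ((Ioc M (M + H)).filter (fun n : ℕ => ∃ u d : ℕ, 1 ≤ d ∧ (d : ℝ) ≤ D ∧
    (∀ i < l, AlmostPrimeArgument r w (u + i * d) ∧ M < u + i * d ∧ u + i * d ≤ M + H) ∧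
    ∃ i < l, n = u + i * d)).card

open Classical in
/-- **Progressions of almost primes `n ^ 2 + 1` in almost all short intervals.** Let `r = 5`,
`1 / 2 ≤ t < 1`, `z = 2 t / 5`, or `r = 4`, `269 / 500 ≤ t < 1`, `z = t / 4`, or `r = 3`,
`29 / 40 ≤ t < 1`, `z = t / 4`. Let `0 < h ≤ t`, `ε > 0` and `l ≥ 2`. There are `δ > 0` and `B` such that,
for all large `X` and all but at most `X ^ (2 t - h + ε)` of the integers `1 ≤ M ≤ X`, the interval
`(M, M + X ^ h]` contains at least `δ X ^ h / log X` integers that are terms of `l`-term arithmetic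
progressions in this interval, with difference at most `(log X) ^ B`, of integers `m` such that
`m ^ 2 + 1` has at most `r` prime factors, all of them at least `X ^ z`. -/
theorem result (r : ℕ) (t z : ℝ)
    (hpar : (r = 5 ∧ 1 / 2 ≤ t ∧ z = 2 / 5 * t) ∨ (r = 4 ∧ 269 / 500 ≤ t ∧ z = t / 4) ∨
      (r = 3 ∧ 29 / 40 ≤ t ∧ z = t / 4)) (ht : t < 1) (h ε : ℝ) (hh : 0 < h) (hht : h ≤ t)
    (hε : 0 < ε) (l : ℕ) (hl : 2 ≤ l) :
    ∃ δ : ℝ, 0 < δ ∧ ∃ B : ℕ, ∀ᶠ X : ℕ in atTop,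
      (((Icc 1 X).filter (fun M : ℕ =>
        (inProgressions r ((X : ℝ) ^ z) l (Real.log X ^ B) M ⌊(X : ℝ) ^ h⌋₊ : ℝ) <
        δ * ((X : ℝ) ^ h / Real.log X))).card : ℝ) ≤ (X : ℝ) ^ (2 * t - h + ε) := by
  obtain ⟨δ, hδ, B, hB⟩ := Pool.Agent.R498.SAP.main r t z hpar ht h ε hh hht hε l hl
  refine ⟨δ, hδ, B, ?_⟩
  filter_upwards [hB] with X hX
  refine le_trans ?_ hX
  norm_cast
  apply card_le_card
  intro M hM
  rw [mem_filter] at hM ⊢
  refine ⟨hM.1, lt_of_le_of_lt ?_ hM.2⟩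
  norm_cast
  unfold Pool.Agent.R498.SAP.cnt inProgressions
  apply card_le_card
  have key : ∀ m : ℕ, m ∈ Pool.Agent.Y882.SI.gset 1 r ((X : ℝ) ^ z) M ⌊(X : ℝ) ^ h⌋₊ →
      AlmostPrimeArgument r ((X : ℝ) ^ z) m ∧ M < m ∧ m ≤ M + ⌊(X : ℝ) ^ h⌋₊ := by
    intro m hm
    unfold Pool.Agent.Y882.SI.gset at hm
    rw [mem_filter, mem_Ioc] at hm
    refine ⟨⟨?_, fun p hp hd => ?_⟩, hm.1⟩
    · have h1 := hm.2.1
      have e : ((m : ℤ) ^ 2 + 1).natAbs = m ^ 2 + 1 := by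
        have : (m : ℤ) ^ 2 + 1 = ((m ^ 2 + 1 : ℕ) : ℤ) := by push_cast; ring
        rw [this, Int.natAbs_natCast]
      rwa [e] at h1
    · exact hm.2.2 p hp (by exact_mod_cast hd)
  intro n hn
  rw [mem_filter] at hn ⊢
  have hn1 := key n hn.1
  refine ⟨mem_Ioc.2 hn1.2, ?_⟩
  obtain ⟨u, d, h1, h2, h3, h4⟩ := hn.2
  exact ⟨u, d, h1, h2, fun i hi => key _ (h3 i hi).1, h4⟩

end Pool.Agent.Results.MP_484c84_nt.ShortIntervalProgressions
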